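import Pool.Agent.Helper60.AD.Defs
import Pool.Agent.Helper22.OV.D3a

/-!
# AD-A9: a square annulus is bounded by finitely many averaged sums

`vk_bound_o3` for `G = R (H - p · u)`; `nk k gph G k α = R nk k gph H k α - R (k · p)`; `rho G = R rho H = R ∑ cf w i rho (bas i)`.
-/

open MeasureTheory Real Set Filter Topology

set_option autoImplicit false

namespace Pool.Agent.Helper85.AD

open Pool.Agent.Helper22.AE Pool.Agent.Helper60.AD
open Pool.Agent.Helper22.OV (vk_bound_o3 mem_sqa_o3 nk_ge_o3 card_sqa_o3 o3_k0_cont o3_k0_nonneg o3_rho_cont o3_gph_cont)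
open Pool.Agent.Helper92.GC (dt sqa)

private lemma t_diff {H : ℝ → ℝ} (h : ContDiff ℝ 2 H) : Differentiable ℝ H := h.differentiable (by norm_num)

private lemma t_cd {H : ℝ → ℝ} (h : ContDiff ℝ 2 H) : ContDiff ℝ 1 (deriv H) :=
  ((contDiff_succ_iff_deriv (n := 1)).1 h).2.2

private lemma t_diff' {H : ℝ → ℝ} (h : ContDiff ℝ 2 H) : Differentiable ℝ (deriv H) :=
  (t_cd h).differentiable (by norm_num)

/-- the derivative of the shifted support function -/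
private lemma t_deriv {H : ℝ → ℝ} (h : ContDiff ℝ 2 H) (p : ℝ × ℝ) (R : ℝ) :
    deriv (fun θ => R * (H θ - (p.1 * cos θ + p.2 * sin θ))) =
      fun θ => R * (deriv H θ - (-p.1 * sin θ + p.2 * cos θ)) := by
  funext θ
  have h1 : HasDerivAt (fun θ => R * (H θ - (p.1 * cos θ + p.2 * sin θ)))
      (R * (deriv H θ - (p.1 * (-sin θ) + p.2 * cos θ))) θ :=
    (((t_diff h) θ).hasDerivAt.sub (((hasDerivAt_cos θ).const_mul p.1).add ((hasDerivAt_sin θ).const_mul p.2))).const_mul R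
  rw [h1.deriv]
  ring

private lemma t_deriv2 {H : ℝ → ℝ} (h : ContDiff ℝ 2 H) (p : ℝ × ℝ) (R θ : ℝ) :
    deriv (deriv (fun θ => R * (H θ - (p.1 * cos θ + p.2 * sin θ)))) θ =
      R * (deriv (deriv H) θ + (p.1 * cos θ + p.2 * sin θ)) := by
  rw [t_deriv h]
  have h1 : HasDerivAt (fun θ => R * (deriv H θ - (-p.1 * sin θ + p.2 * cos θ)))
      (R * (deriv (deriv H) θ - (-p.1 * cos θ + p.2 * (-sin θ)))) θ :=
    (((t_diff' h) θ).hasDerivAt.sub (((hasDerivAt_sin θ).const_mul (-p.1)).add ((hasDerivAt_cos θ).const_mul p.2))).const_mul R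
  rw [h1.deriv]
  ring

private lemma t_rho {H : ℝ → ℝ} (h : ContDiff ℝ 2 H) (p : ℝ × ℝ) (R θ : ℝ) :
    rho (fun θ => R * (H θ - (p.1 * cos θ + p.2 * sin θ))) θ = R * rho H θ := by
  unfold rho
  rw [t_deriv2 h]
  ring

private lemma t_cz (k : ℤ × ℤ) : (k.1 : ℝ) = nk k * cos (tk k) ∧ (k.2 : ℝ) = nk k * sin (tk k) := by
  have h := nk_zk k
  unfold zk at h
  constructor
  · have h1 := congrArg Complex.re h
    rw [Complex.re_ofReal_mul, Complex.exp_ofReal_mul_I_re] at h1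
    exact h1.symm
  · have h1 := congrArg Complex.im h
    rw [Complex.im_ofReal_mul, Complex.exp_ofReal_mul_I_im] at h1
    exact h1.symm

private lemma t_gph {H : ℝ → ℝ} (h : ContDiff ℝ 2 H) (p : ℝ × ℝ) (R : ℝ) (k : ℤ × ℤ) (α : ℝ) :
    nk k * gph (fun θ => R * (H θ - (p.1 * cos θ + p.2 * sin θ))) k α =
      R * (nk k * gph H k α) - dt k (R • p) := by
  unfold gph dt
  rw [t_deriv h]
  obtain ⟨h1, h2⟩ := t_cz k
  rw [h1, h2]
  simp only [Prod.smul_fst, Prod.smul_snd, smul_eq_mul]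
  have e1 : cos (tk k + α) * cos α + sin (tk k + α) * sin α = cos (tk k) := by
    rw [← cos_sub]; congr 1; ring
  have e2 : sin (tk k + α) * cos α - cos (tk k + α) * sin α = sin (tk k) := by
    rw [← sin_sub]; congr 1; ring
  rw [← e1, ← e2]
  ring

/-- the radius of curvature is linear -/
private lemma t_rho_bas {L : ℕ} {H₀ : ℝ → ℝ} (h0 : ContDiff ℝ 2 H₀) (w : (Fin L → ℝ) × (Fin L → ℝ)) (θ : ℝ) :
    rho (Hw H₀ w) θ = ∑ i : Ix L, cf w i * rho (bas H₀ i) θ := by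
  unfold rho
  rw [Hw_bas]
  have h1 : deriv (fun θ => ∑ i : Ix L, cf w i * bas H₀ i θ) = fun θ => ∑ i : Ix L, cf w i * deriv (bas H₀ i) θ := by
    funext x
    have : HasDerivAt (fun θ => ∑ i : Ix L, cf w i * bas H₀ i θ) (∑ i : Ix L, cf w i * deriv (bas H₀ i) x) x :=
      HasDerivAt.fun_sum fun i _ => ((t_diff (bas_smooth h0 i)) x).hasDerivAt.const_mul (cf w i)
    exact this.deriv
  rw [h1]
  have h2 : HasDerivAt (fun θ => ∑ i : Ix L, cf w i * deriv (bas H₀ i) θ)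
      (∑ i : Ix L, cf w i * deriv (deriv (bas H₀ i)) θ) θ :=
    HasDerivAt.fun_sum fun i _ => ((t_diff' (bas_smooth h0 i)) θ).hasDerivAt.const_mul (cf w i)
  rw [h2.deriv, ← Finset.sum_add_distrib]
  refine Finset.sum_congr rfl fun i _ => ?_
  ring

/-- the radii of curvature of the basis functions are bounded -/
private lemma t_rho_bdd (L : ℕ) {H₀ : ℝ → ℝ} (h0 : ContDiff ℝ 2 H₀) (hp : Function.Periodic H₀ (2 * π)) :
    ∃ C : ℝ, 1 ≤ C ∧ ∀ (i : Ix L) (θ : ℝ), |rho (bas H₀ i) θ| ≤ C := by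
  have h1 : ∀ i : Ix L, ∃ C : ℝ, ∀ θ : ℝ, |rho (bas H₀ i) θ| ≤ C := by
    intro i
    have hc := o3_rho_cont (bas_smooth h0 i)
    have hper : Function.Periodic (rho (bas H₀ i)) (2 * π) := by
      have hb := bas_per (L := L) hp i
      have hb1 : Function.Periodic (deriv (bas H₀ i)) (2 * π) := by
        intro x
        have : deriv (fun y => bas H₀ i (y + 2 * π)) x = deriv (bas H₀ i) (x + 2 * π) := deriv_comp_add_const _ _ _
        rw [← this]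
        congr 1
        funext y
        exact hb y
      have hb2 : Function.Periodic (deriv (deriv (bas H₀ i))) (2 * π) := by
        intro x
        have : deriv (fun y => deriv (bas H₀ i) (y + 2 * π)) x = deriv (deriv (bas H₀ i)) (x + 2 * π) :=
          deriv_comp_add_const _ _ _
        rw [← this]
        congr 1
        funext y
        exact hb1 y
      intro x
      unfold rho
      rw [hb x, hb2 x]
    obtain ⟨C, hC⟩ := (isCompact_Icc (a := (0 : ℝ)) (b := 2 * π)).exists_bound_of_continuousOn hc.continuousOn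
    refine ⟨C, fun θ => ?_⟩
    obtain ⟨y, hy, hye⟩ := hper.exists_mem_Ico₀ Real.two_pi_pos θ
    rw [hye]
    exact hC y ⟨hy.1, hy.2.le⟩
  choose C hC using h1
  refine ⟨1 + ∑ i, |C i|, ?_, fun i θ => ?_⟩
  · have : 0 ≤ ∑ i, |C i| := Finset.sum_nonneg fun i _ => abs_nonneg _
    linarith
  · have h2 : |C i| ≤ ∑ i, |C i| := Finset.single_le_sum (f := fun i => |C i|) (fun i _ => abs_nonneg _) (Finset.mem_univ i)
    have h3 := (hC i θ).trans (le_abs_self (C i))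
    linarith

/-- the square annulus lies in two dyadic blocks -/
private lemma t_split (n : ℕ) (f : ℤ × ℤ → ℂ) :
    ∑ k ∈ sqa (2 ^ n), f k = ∑ r ∈ Finset.range 2, ∑ k ∈ blk (n + r), (if k ∈ sqa (2 ^ n) then f k else 0) := by
  classical
  have hsub : ∀ k ∈ sqa (2 ^ n), k ∈ blk n ∨ k ∈ blk (n + 1) := by
    intro k hk
    obtain ⟨_, h2, h3⟩ := mem_sqa_o3 hk
    have h4 := nk_ge_o3 hk
    push_cast at h2 h3 h4
    have hsq : nk k ^ 2 = (k.1 : ℝ) ^ 2 + (k.2 : ℝ) ^ 2 := by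
      unfold nk
      rw [← Complex.normSq_eq_norm_sq, Complex.normSq_apply]
      simp [cz]
      ring
    have h2' : |(k.1 : ℝ)| < 2 * 2 ^ n := by exact_mod_cast h2
    have h3' : |(k.2 : ℝ)| < 2 * 2 ^ n := by exact_mod_cast h3
    have hK : (0 : ℝ) < 2 ^ n := by positivity
    have h5 : nk k < 4 * 2 ^ n := by
      have h6 : (k.1 : ℝ) ^ 2 < (2 * 2 ^ n) ^ 2 := by
        rw [← sq_abs]; exact pow_lt_pow_left₀ h2' (abs_nonneg _) (by norm_num)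
      have h7 : (k.2 : ℝ) ^ 2 < (2 * 2 ^ n) ^ 2 := by
        rw [← sq_abs]; exact pow_lt_pow_left₀ h3' (abs_nonneg _) (by norm_num)
      have h8 : nk k ^ 2 < (4 * 2 ^ n) ^ 2 := by rw [hsq]; nlinarith
      exact lt_of_pow_lt_pow_left₀ 2 (by positivity) h8
    have hbox : ∀ m : ℕ, n + 1 ≤ m → k ∈ box (2 ^ m) := by
      intro m hm
      unfold box
      have h9 : (2 : ℤ) * 2 ^ n ≤ 2 ^ m := by
        rw [← pow_succ']
        exact pow_le_pow_right₀ (by norm_num) hm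
      rw [abs_lt] at h2 h3
      rw [Finset.mem_product, Finset.mem_Icc, Finset.mem_Icc]
      push_cast
      refine ⟨⟨by linarith [h2.1], by linarith [h2.2]⟩, ⟨by linarith [h3.1], by linarith [h3.2]⟩⟩
    rcases lt_or_ge (nk k) (2 ^ (n + 1)) with h6 | h6
    · left
      unfold blk
      rw [Finset.mem_filter]
      exact ⟨hbox _ le_rfl, h4, h6⟩
    · right
      unfold blk
      rw [Finset.mem_filter]
      refine ⟨hbox _ (by omega), h6, ?_⟩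
      calc nk k < 4 * 2 ^ n := h5
        _ = 2 ^ (n + 1 + 1) := by rw [pow_succ, pow_succ]; ring
  have hdisj : Disjoint (blk n) (blk (n + 1)) := by
    rw [Finset.disjoint_left]
    intro k h1 h2
    unfold blk at h1 h2
    have := (Finset.mem_filter.1 h1).2.2
    have h3 := (Finset.mem_filter.1 h2).2.1
    linarith
  rw [Finset.sum_range_succ, Finset.sum_range_one, add_zero, ← Finset.sum_union hdisj, ← Finset.sum_filter]
  congr 1
  ext k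
  rw [Finset.mem_filter, Finset.mem_union]
  exact ⟨fun h => ⟨hsub k h, h⟩, fun h => h.2⟩

open Classical in
/-- the weights: `none` for the second sum, `some i` for the basis functions -/
private noncomputable def wb {L : ℕ} (H₀ : ℝ → ℝ) (C : ℝ) (n : ℕ) : Option (Ix L) → ℝ → ℤ × ℤ → ℂ
  | none, _, k => if k ∈ sqa (2 ^ n) then (((2 ^ n / nk k) ^ 2 : ℝ) : ℂ) else 0
  | some i, α, k => if k ∈ sqa (2 ^ n) then ((2 ^ n / nk k * (rho (bas H₀ i) (tk k + α) / C) : ℝ) : ℂ) else 0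

private lemma wb_cont {L : ℕ} {H₀ : ℝ → ℝ} (h0 : ContDiff ℝ 2 H₀) (C : ℝ) (n : ℕ) (i : Option (Ix L)) (k : ℤ × ℤ) :
    Continuous (fun α => wb H₀ C n i α k) := by
  rcases i with _ | i
  · unfold wb; exact continuous_const
  · simp only [wb]
    split_ifs
    · have hc := o3_rho_cont (bas_smooth h0 i)
      refine Complex.continuous_ofReal.comp ?_
      have : Continuous (fun α => rho (bas H₀ i) (tk k + α)) := hc.comp (continuous_const.add continuous_id)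
      exact continuous_const.mul (this.div_const C)
    · exact continuous_const

private lemma wb_le {L : ℕ} {H₀ : ℝ → ℝ} {C : ℝ} (hC1 : 1 ≤ C) (hC : ∀ (i : Ix L) (θ : ℝ), |rho (bas H₀ i) θ| ≤ C)
    (n : ℕ) (i : Option (Ix L)) (α : ℝ) (k : ℤ × ℤ) : ‖wb H₀ C n i α k‖ ≤ 1 := by
  have hq : k ∈ sqa (2 ^ n) → 0 ≤ 2 ^ n / nk k ∧ 2 ^ n / nk k ≤ 1 := by
    intro hk
    have h1 := nk_ge_o3 hk
    push_cast at h1
    have hK : (0 : ℝ) < 2 ^ n := by positivity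
    have h2 : 0 < nk k := lt_of_lt_of_le hK h1
    exact ⟨by positivity, (div_le_one h2).2 h1⟩
  rcases i with _ | i
  · simp only [wb]
    split_ifs with h
    · obtain ⟨h1, h2⟩ := hq h
      rw [Complex.norm_real, Real.norm_of_nonneg (by positivity)]
      exact pow_le_one₀ h1 h2
    · simp
  · simp only [wb]
    split_ifs with h
    · obtain ⟨h1, h2⟩ := hq h
      rw [Complex.norm_real, Real.norm_eq_abs, abs_mul, abs_of_nonneg h1, abs_div, abs_of_pos (by linarith : 0 < C)]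
      have h3 : |rho (bas H₀ i) (tk k + α)| / C ≤ 1 := (div_le_one (by linarith)).2 (hC i _)
      exact mul_le_one₀ h2 (by positivity) h3
    · simp

private lemma wb_off {L : ℕ} (H₀ : ℝ → ℝ) (C : ℝ) (n : ℕ) (i : Option (Ix L)) (α : ℝ) (k : ℤ × ℤ) (hk : k ∉ sqa (2 ^ n)) :
    wb H₀ C n i α k = 0 := by
  rcases i with _ | i
  · simp only [wb]; rw [if_neg hk]
  · simp only [wb]; rw [if_neg hk]

/-- the sum over the annulus is the sum of the sums over two blocks -/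
private lemma Sc_split {L : ℕ} (H₀ : ℝ → ℝ) (C : ℝ) (n : ℕ) (i : Option (Ix L)) (h : ℝ → ℝ) (R α : ℝ) (c : ℝ × ℝ) :
    Sc h (sqa (2 ^ n)) (wb H₀ C n i α) R α c =
      ∑ r ∈ Finset.range 2, Sc h (blk (n + r)) (wb H₀ C n i α) R α c := by
  unfold Sc
  rw [t_split]
  refine Finset.sum_congr rfl fun r _ => Finset.sum_congr rfl fun k _ => ?_
  split_ifs with hk
  · rfl
  · rw [wb_off H₀ C n i α k hk]; simp

private lemma Sc_cont {h : ℝ → ℝ} (hh : ContDiff ℝ 2 h) (B : Finset (ℤ × ℤ)) (b : ℝ → ℤ × ℤ → ℂ)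
    (hb : ∀ k, Continuous (fun α => b α k)) (R : ℝ) (c : ℝ × ℝ) : Continuous (fun α => Sc h B (b α) R α c) := by
  unfold Sc
  refine continuous_finsetSum _ fun k _ => ?_
  have h1 := o3_gph_cont hh k
  refine ((hb k).mul (ee_cont.comp ?_)).mul continuous_const
  exact (continuous_const.mul (continuous_const.mul h1)).neg

private lemma Sc_le (h : ℝ → ℝ) (B : Finset (ℤ × ℤ)) (b : ℤ × ℤ → ℂ) (hb : ∀ k, ‖b k‖ ≤ 1) (R α : ℝ) (c : ℝ × ℝ) :
    ‖Sc h B b R α c‖ ≤ B.card := by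
  unfold Sc
  refine (norm_sum_le _ _).trans ?_
  calc ∑ k ∈ B, ‖b k * ee (-(R * (nk k * gph h k α))) * ee (dt k c)‖ ≤ ∑ _k ∈ B, (1 : ℝ) := by
        refine Finset.sum_le_sum fun k _ => ?_
        rw [norm_mul, norm_mul, ee_norm, ee_norm, mul_one, mul_one]
        exact hb k
    _ = _ := by simp

/-- the part of the average near the zeros of the cosine -/
private lemma part_le {f : ℝ → ℝ} (hf : Continuous f) (hf0 : ∀ α, 0 ≤ f α) {F β : ℝ} (hF : ∀ α, f α ≤ F) (hβ : 0 < β) :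
    ∫ α in (-π)..π, k0 β α * f α ≤
      (∫ α in Icc (-π) π ∩ {α | 1 / 2 ≤ |cos α|}, k0 β α * f α) + 4 * π * β * F := by
  have hpi := Real.pi_pos
  have hkc := o3_k0_cont hβ
  have hF0 : 0 ≤ F := (hf0 0).trans (hF 0)
  have hmeas : MeasurableSet {α : ℝ | 1 / 2 ≤ |cos α|} :=
    (isClosed_le continuous_const (continuous_cos.abs)).measurableSet
  have hint : IntegrableOn (fun α => k0 β α * f α) (Icc (-π) π) := (hkc.mul hf).continuousOn.integrableOn_Icc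
  rw [intervalIntegral.integral_of_le (by linarith), ← integral_Icc_eq_integral_Ioc,
    ← integral_inter_add_sdiff hmeas hint]
  refine add_le_add le_rfl ?_
  have h1 : ∀ α ∈ Icc (-π) π \ {α : ℝ | 1 / 2 ≤ |cos α|}, k0 β α * f α ≤ 2 * β * F := by
    intro α hα
    have h2 : |cos α| < 1 / 2 := not_le.1 hα.2
    have h3 : cos α ^ 2 ≤ 1 / 4 := by
      rw [← sq_abs]
      nlinarith [abs_nonneg (cos α)]
    have h4 : 3 / 4 ≤ sin α ^ 2 := by nlinarith [sin_sq_add_cos_sq α]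
    have h5 : k0 β α ≤ 2 * β := by
      unfold k0
      rw [div_le_iff₀ (by positivity)]
      nlinarith [sq_nonneg β, mul_pos hβ hβ]
    exact mul_le_mul h5 (hF α) (hf0 α) (by positivity)
  have hfin : volume (Icc (-π) π \ {α : ℝ | 1 / 2 ≤ |cos α|}) ≠ ⊤ :=
    ((measure_mono sdiff_subset).trans_lt (isCompact_Icc.measure_lt_top)).ne
  have h6 : ∫ α in Icc (-π) π \ {α : ℝ | 1 / 2 ≤ |cos α|}, k0 β α * f α ≤
      ∫ _α in Icc (-π) π \ {α : ℝ | 1 / 2 ≤ |cos α|}, 2 * β * F := by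
    refine setIntegral_mono_on (hint.mono_set sdiff_subset) (integrableOn_const hfin) (measurableSet_Icc.diff hmeas) h1
  refine h6.trans ?_
  rw [setIntegral_const, smul_eq_mul]
  have h7 : volume.real (Icc (-π) π \ {α : ℝ | 1 / 2 ≤ |cos α|}) ≤ 2 * π := by
    have h8 : volume.real (Icc (-π) π \ {α : ℝ | 1 / 2 ≤ |cos α|}) ≤ volume.real (Icc (-π) π) :=
      measureReal_mono sdiff_subset isCompact_Icc.measure_lt_top.ne
    rw [Real.volume_real_Icc_of_le (by linarith)] at h8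
    linarith
  calc volume.real (Icc (-π) π \ {α : ℝ | 1 / 2 ≤ |cos α|}) * (2 * β * F) ≤ 2 * π * (2 * β * F) :=
        mul_le_mul_of_nonneg_right h7 (by positivity)
    _ = _ := by ring

/-- the phase -/
private lemma ph_eq {H : ℝ → ℝ} (hH : ContDiff ℝ 2 H) (p c : ℝ × ℝ) (R : ℝ) (k : ℤ × ℤ) (α : ℝ) :
    ee (dt k c) * ee (-(nk k * gph (fun θ => R * (H θ - (p.1 * cos θ + p.2 * sin θ))) k α)) =
      ee (-(R * (nk k * gph H k α))) * ee (dt k (c + R • p)) := by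
  rw [t_gph hH, ← ee_add, ← ee_add]
  congr 1
  have : dt k (c + R • p) = dt k c + dt k (R • p) := by
    unfold dt; simp only [Prod.fst_add, Prod.snd_add]; ring
  rw [this]
  ring

private lemma nk_pos_sqa {n : ℕ} {k : ℤ × ℤ} (hk : k ∈ sqa (2 ^ n)) : 0 < nk k := by
  have h1 := nk_ge_o3 hk
  push_cast at h1
  have : (0 : ℝ) < 2 ^ n := by positivity
  linarith

private lemma alg_one (x r q C R K E : ℂ) (hx : x ≠ 0) (hC : C ≠ 0) (hK : K ≠ 0) :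
    R * (q * r) / x * E = R * C / K * (q * (K / x * (r / C) * E)) := by
  field_simp

private lemma alg_two (x K E : ℂ) (hx : x ≠ 0) (hK : K ≠ 0) :
    1 / x ^ 2 * E = 1 / K ^ 2 * ((K / x) ^ 2 * E) := by
  field_simp

/-- one term of the first sum -/
private lemma term_one {L : ℕ} {H₀ : ℝ → ℝ} (h0 : ContDiff ℝ 2 H₀) {C1 : ℝ} (hC1 : 1 ≤ C1) {n : ℕ}
    (w : (Fin L → ℝ) × (Fin L → ℝ)) (p c : ℝ × ℝ) (R α : ℝ) {k : ℤ × ℤ} (hk : k ∈ sqa (2 ^ n)) :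
    ee (dt k c) / (nk k : ℂ) *
        ((rho (fun θ => R * (Hw H₀ w θ - (p.1 * cos θ + p.2 * sin θ))) (tk k + α) : ℝ) : ℂ) *
          ee (-(nk k * gph (fun θ => R * (Hw H₀ w θ - (p.1 * cos θ + p.2 * sin θ))) k α)) =
      ∑ i : Ix L, ((R * C1 / 2 ^ n : ℝ) : ℂ) * (((cf w i : ℝ) : ℂ) * (wb H₀ C1 n (some i) α k *
          ee (-(R * (nk k * gph (Hw H₀ w) k α))) * ee (dt k (c + R • p)))) := by
  have hHs : ContDiff ℝ 2 (Hw H₀ w) := Hw_smooth h0 w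
  have h2 : (nk k : ℂ) ≠ 0 := by exact_mod_cast (nk_pos_sqa hk).ne'
  have h3 : (C1 : ℂ) ≠ 0 := by
    have : C1 ≠ 0 := by linarith
    exact_mod_cast this
  have h4 : (2 : ℂ) ^ n ≠ 0 := pow_ne_zero _ (by norm_num)
  have h1 : ee (dt k c) / (nk k : ℂ) *
        ((rho (fun θ => R * (Hw H₀ w θ - (p.1 * cos θ + p.2 * sin θ))) (tk k + α) : ℝ) : ℂ) *
          ee (-(nk k * gph (fun θ => R * (Hw H₀ w θ - (p.1 * cos θ + p.2 * sin θ))) k α)) =
          ((rho (fun θ => R * (Hw H₀ w θ - (p.1 * cos θ + p.2 * sin θ))) (tk k + α) : ℝ) : ℂ) / (nk k : ℂ) *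
            (ee (dt k c) * ee (-(nk k * gph (fun θ => R * (Hw H₀ w θ - (p.1 * cos θ + p.2 * sin θ))) k α))) := by ring
  rw [h1, ph_eq hHs, t_rho hHs, t_rho_bas h0, Finset.mul_sum, Complex.ofReal_sum, Finset.sum_div, Finset.sum_mul]
  refine Finset.sum_congr rfl fun i _ => ?_
  simp only [wb]
  rw [if_pos hk, mul_assoc (_ : ℂ) (ee _) (ee _)]
  generalize ee (-(R * (nk k * gph (Hw H₀ w) k α))) * ee (dt k (c + R • p)) = E0
  have := alg_one (nk k : ℂ) ((rho (bas H₀ i) (tk k + α) : ℝ) : ℂ) ((cf w i : ℝ) : ℂ) (C1 : ℂ) (R : ℂ) ((2 : ℂ) ^ n) E0 h2 h3 h4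
  push_cast
  exact this

/-- the first sum -/
private lemma sum_one {L : ℕ} {H₀ : ℝ → ℝ} (h0 : ContDiff ℝ 2 H₀) {C1 : ℝ} (hC1 : 1 ≤ C1) (n : ℕ)
    (w : (Fin L → ℝ) × (Fin L → ℝ)) (p c : ℝ × ℝ) (R α : ℝ) :
    ∑ k ∈ sqa (2 ^ n), ee (dt k c) / (nk k : ℂ) *
        ((rho (fun θ => R * (Hw H₀ w θ - (p.1 * cos θ + p.2 * sin θ))) (tk k + α) : ℝ) : ℂ) *
          ee (-(nk k * gph (fun θ => R * (Hw H₀ w θ - (p.1 * cos θ + p.2 * sin θ))) k α)) =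
      ((R * C1 / 2 ^ n : ℝ) : ℂ) * ∑ i : Ix L, ((cf w i : ℝ) : ℂ) *
        Sc (Hw H₀ w) (sqa (2 ^ n)) (wb H₀ C1 n (some i) α) R α (c + R • p) := by
  rw [Finset.sum_congr rfl fun k hk => term_one h0 hC1 w p c R α hk, Finset.sum_comm, Finset.mul_sum]
  refine Finset.sum_congr rfl fun i _ => ?_
  unfold Sc
  rw [← Finset.mul_sum, ← Finset.mul_sum]

/-- the second sum -/
private lemma sum_two {L : ℕ} {H₀ : ℝ → ℝ} (h0 : ContDiff ℝ 2 H₀) (C1 : ℝ) (n : ℕ)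
    (w : (Fin L → ℝ) × (Fin L → ℝ)) (p c : ℝ × ℝ) (R α : ℝ) :
    ∑ k ∈ sqa (2 ^ n), ee (dt k c) / (nk k : ℂ) ^ 2 *
          ee (-(nk k * gph (fun θ => R * (Hw H₀ w θ - (p.1 * cos θ + p.2 * sin θ))) k α)) =
      ((1 / (2 ^ n) ^ 2 : ℝ) : ℂ) * Sc (Hw H₀ w) (sqa (2 ^ n)) (wb (L := L) H₀ C1 n none α) R α (c + R • p) := by
  have hHs : ContDiff ℝ 2 (Hw H₀ w) := Hw_smooth h0 w
  unfold Sc
  rw [Finset.mul_sum]
  refine Finset.sum_congr rfl fun k hk => ?_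
  have h2 : (nk k : ℂ) ≠ 0 := by exact_mod_cast (nk_pos_sqa hk).ne'
  have h4 : (2 : ℂ) ^ n ≠ 0 := pow_ne_zero _ (by norm_num)
  have h1 : ee (dt k c) / (nk k : ℂ) ^ 2 *
        ee (-(nk k * gph (fun θ => R * (Hw H₀ w θ - (p.1 * cos θ + p.2 * sin θ))) k α)) =
      1 / (nk k : ℂ) ^ 2 *
        (ee (dt k c) * ee (-(nk k * gph (fun θ => R * (Hw H₀ w θ - (p.1 * cos θ + p.2 * sin θ))) k α))) := by
    ring
  rw [h1, ph_eq hHs]
  simp only [wb]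
  rw [if_pos hk, mul_assoc (_ : ℂ) (ee _) (ee _)]
  generalize ee (-(R * (nk k * gph (Hw H₀ w) k α))) * ee (dt k (c + R • p)) = E0
  have := alg_two (nk k : ℂ) ((2 : ℂ) ^ n) E0 h2 h4
  push_cast
  exact this

/-- the averaged sum over the annulus -/
private noncomputable def It {L : ℕ} (H₀ : ℝ → ℝ) (C1 β : ℝ) (n : ℕ) (w : (Fin L → ℝ) × (Fin L → ℝ)) (R : ℝ) (c' : ℝ × ℝ)
    (t : Option (Ix L)) : ℝ :=
  ∫ α in (-π)..π, k0 β α * ‖Sc (Hw H₀ w) (sqa (2 ^ n)) (wb H₀ C1 n t α) R α c'‖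

/-- the part with `|cos α| ≥ 1/2`, on a block -/
private noncomputable def Jt {L : ℕ} (H₀ : ℝ → ℝ) (C1 β : ℝ) (n : ℕ) (w : (Fin L → ℝ) × (Fin L → ℝ)) (R : ℝ) (c' : ℝ × ℝ)
    (t : Option (Ix L)) (r : ℕ) : ℝ :=
  ∫ α in Icc (-π) π ∩ {α | 1 / 2 ≤ |cos α|}, k0 β α * ‖Sc (Hw H₀ w) (blk (n + r)) (wb H₀ C1 n t α) R α c'‖

private lemma int_one {L : ℕ} {H₀ : ℝ → ℝ} (h0 : ContDiff ℝ 2 H₀) {C1 : ℝ} (hC1 : 1 ≤ C1) {β : ℝ} (hβ : 0 < β) (n : ℕ)
    {w : (Fin L → ℝ) × (Fin L → ℝ)} {Bd : ℝ} (hw : ‖w‖ ≤ Bd) (p c : ℝ × ℝ) {R : ℝ} (hR : 0 < R) :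
    (∫ α in (-π)..π, k0 β α * ‖∑ k ∈ sqa (2 ^ n), ee (dt k c) / (nk k : ℂ) *
        ((rho (fun θ => R * (Hw H₀ w θ - (p.1 * cos θ + p.2 * sin θ))) (tk k + α) : ℝ) : ℂ) *
          ee (-(nk k * gph (fun θ => R * (Hw H₀ w θ - (p.1 * cos θ + p.2 * sin θ))) k α))‖) ≤
      (R * C1 / 2 ^ n) * max 1 Bd * ∑ i : Ix L, It H₀ C1 β n w R (c + R • p) (some i) := by
  have hpi := Real.pi_pos
  have hHs : ContDiff ℝ 2 (Hw H₀ w) := Hw_smooth h0 w
  have hkc := o3_k0_cont hβ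
  have hk0 : ∀ α, 0 ≤ k0 β α := o3_k0_nonneg hβ
  have hcf : ∀ i : Ix L, |cf w i| ≤ max 1 Bd := fun i => (cf_abs_le w i).trans (max_le_max le_rfl hw)
  have hcont : ∀ t : Option (Ix L), Continuous (fun α => ‖Sc (Hw H₀ w) (sqa (2 ^ n)) (wb H₀ C1 n t α) R α (c + R • p)‖) := fun t =>
    (Sc_cont hHs _ _ (fun k => wb_cont h0 C1 n t k) R (c + R • p)).norm
  have hRC : 0 ≤ R * C1 / 2 ^ n := by positivity
  simp only [sum_one h0 hC1 n w p c R]
  have h1 : ∀ α, k0 β α * ‖((R * C1 / 2 ^ n : ℝ) : ℂ) * ∑ i : Ix L, ((cf w i : ℝ) : ℂ) *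
      Sc (Hw H₀ w) (sqa (2 ^ n)) (wb H₀ C1 n (some i) α) R α (c + R • p)‖ ≤
      ∑ i : Ix L, (R * C1 / 2 ^ n) * max 1 Bd *
        (k0 β α * ‖Sc (Hw H₀ w) (sqa (2 ^ n)) (wb H₀ C1 n (some i) α) R α (c + R • p)‖) := by
    intro α
    rw [norm_mul, Complex.norm_real, Real.norm_of_nonneg hRC]
    have h2 : ‖∑ i : Ix L, ((cf w i : ℝ) : ℂ) * Sc (Hw H₀ w) (sqa (2 ^ n)) (wb H₀ C1 n (some i) α) R α (c + R • p)‖ ≤
        ∑ i : Ix L, max 1 Bd * ‖Sc (Hw H₀ w) (sqa (2 ^ n)) (wb H₀ C1 n (some i) α) R α (c + R • p)‖ := by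
      refine (norm_sum_le _ _).trans (Finset.sum_le_sum fun i _ => ?_)
      rw [norm_mul, Complex.norm_real, Real.norm_eq_abs]
      exact mul_le_mul_of_nonneg_right (hcf i) (norm_nonneg _)
    refine (mul_le_mul_of_nonneg_left (mul_le_mul_of_nonneg_left h2 hRC) (hk0 α)).trans_eq ?_
    rw [Finset.mul_sum, Finset.mul_sum]
    refine Finset.sum_congr rfl fun i _ => ?_
    ring
  have hc1 : Continuous (fun α => k0 β α * ‖((R * C1 / 2 ^ n : ℝ) : ℂ) * ∑ i : Ix L, ((cf w i : ℝ) : ℂ) *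
      Sc (Hw H₀ w) (sqa (2 ^ n)) (wb H₀ C1 n (some i) α) R α (c + R • p)‖) := by
    refine hkc.mul (Continuous.norm ?_)
    refine continuous_const.mul (continuous_finsetSum _ fun i _ => ?_)
    exact continuous_const.mul (Sc_cont hHs _ _ (fun k => wb_cont h0 C1 n (some i) k) R (c + R • p))
  have hc3 : ∀ i : Ix L, Continuous (fun α => (R * C1 / 2 ^ n) * max 1 Bd *
      (k0 β α * ‖Sc (Hw H₀ w) (sqa (2 ^ n)) (wb H₀ C1 n (some i) α) R α (c + R • p)‖)) := fun i =>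
    continuous_const.mul (hkc.mul (hcont (some i)))
  refine (intervalIntegral.integral_mono_on (by linarith) (hc1.intervalIntegrable _ _)
    ((continuous_finsetSum _ fun i _ => hc3 i).intervalIntegrable _ _) fun α _ => h1 α).trans_eq ?_
  rw [intervalIntegral.integral_finsetSum fun i _ => (hc3 i).intervalIntegrable _ _, Finset.mul_sum]
  refine Finset.sum_congr rfl fun i _ => ?_
  rw [intervalIntegral.integral_const_mul]
  rfl

private lemma int_two {L : ℕ} {H₀ : ℝ → ℝ} (h0 : ContDiff ℝ 2 H₀) (C1 β : ℝ) (n : ℕ)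
    (w : (Fin L → ℝ) × (Fin L → ℝ)) (p c : ℝ × ℝ) (R : ℝ) :
    (∫ α in (-π)..π, k0 β α * ‖∑ k ∈ sqa (2 ^ n), ee (dt k c) / (nk k : ℂ) ^ 2 *
          ee (-(nk k * gph (fun θ => R * (Hw H₀ w θ - (p.1 * cos θ + p.2 * sin θ))) k α))‖) =
      1 / (2 ^ n) ^ 2 * It H₀ C1 β n w R (c + R • p) none := by
  simp only [sum_two h0 C1 n w p c R]
  unfold It
  rw [← intervalIntegral.integral_const_mul]
  refine intervalIntegral.integral_congr fun α _ => ?_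
  rw [norm_mul, Complex.norm_real, Real.norm_of_nonneg (by positivity)]
  ring

private lemma It_nonneg {L : ℕ} (H₀ : ℝ → ℝ) (C1 : ℝ) {β : ℝ} (hβ : 0 < β) (n : ℕ)
    (w : (Fin L → ℝ) × (Fin L → ℝ)) (R : ℝ) (c' : ℝ × ℝ) (t : Option (Ix L)) : 0 ≤ It H₀ C1 β n w R c' t :=
  intervalIntegral.integral_nonneg (by linarith [Real.pi_pos]) fun α _ => mul_nonneg (o3_k0_nonneg hβ α) (norm_nonneg _)

private lemma Jt_nonneg {L : ℕ} (H₀ : ℝ → ℝ) (C1 : ℝ) {β : ℝ} (hβ : 0 < β) (n : ℕ)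
    (w : (Fin L → ℝ) × (Fin L → ℝ)) (R : ℝ) (c' : ℝ × ℝ) (t : Option (Ix L)) (r : ℕ) : 0 ≤ Jt H₀ C1 β n w R c' t r :=
  setIntegral_nonneg (measurableSet_Icc.inter (isClosed_le continuous_const (continuous_cos.abs)).measurableSet)
    fun α _ => mul_nonneg (o3_k0_nonneg hβ α) (norm_nonneg _)

private lemma It_le {L : ℕ} {H₀ : ℝ → ℝ} (h0 : ContDiff ℝ 2 H₀) {C1 : ℝ} (hC1 : 1 ≤ C1)
    (hCr : ∀ (i : Ix L) (θ : ℝ), |rho (bas H₀ i) θ| ≤ C1) {β : ℝ} (hβ : 0 < β) (n : ℕ)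
    (w : (Fin L → ℝ) × (Fin L → ℝ)) (R : ℝ) (c' : ℝ × ℝ) (t : Option (Ix L)) :
    It H₀ C1 β n w R c' t ≤ (∑ r ∈ Finset.range 2, Jt H₀ C1 β n w R c' t r) + 64 * π * β * (2 ^ n) ^ 2 := by
  have hHs : ContDiff ℝ 2 (Hw H₀ w) := Hw_smooth h0 w
  have hkc := o3_k0_cont hβ
  have hk0 : ∀ α, 0 ≤ k0 β α := o3_k0_nonneg hβ
  have hcont : Continuous (fun α => ‖Sc (Hw H₀ w) (sqa (2 ^ n)) (wb H₀ C1 n t α) R α c'‖) :=
    (Sc_cont hHs _ _ (fun k => wb_cont h0 C1 n t k) R c').norm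
  have h1 := part_le hcont (fun α => norm_nonneg _) (F := 16 * (2 ^ n) ^ 2) (fun α => by
    refine (Sc_le (Hw H₀ w) _ _ (fun k => wb_le hC1 hCr n t α k) R α c').trans ?_
    have := card_sqa_o3 (2 ^ n)
    push_cast at this
    exact this) hβ
  refine h1.trans ?_
  refine add_le_add ?_ (le_of_eq (by ring))
  have hmeas : MeasurableSet (Icc (-π) π ∩ {α : ℝ | 1 / 2 ≤ |cos α|}) :=
    measurableSet_Icc.inter (isClosed_le continuous_const (continuous_cos.abs)).measurableSet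
  have hir : ∀ r, IntegrableOn (fun α => k0 β α * ‖Sc (Hw H₀ w) (blk (n + r)) (wb H₀ C1 n t α) R α c'‖)
      (Icc (-π) π ∩ {α : ℝ | 1 / 2 ≤ |cos α|}) := fun r =>
    ((hkc.mul (Sc_cont hHs _ _ (fun k => wb_cont h0 C1 n t k) R c').norm).continuousOn.integrableOn_Icc).mono_set inter_subset_left
  unfold Jt
  rw [← integral_finsetSum _ fun r _ => hir r]
  refine setIntegral_mono_on (((hkc.mul hcont).continuousOn.integrableOn_Icc).mono_set inter_subset_left)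
    (integrable_finsetSum _ fun r _ => hir r) hmeas fun α _ => ?_
  rw [Sc_split, ← Finset.mul_sum]
  exact mul_le_mul_of_nonneg_left (norm_sum_le _ _) (hk0 α)

private lemma size_one {R₀ K : ℝ} (hR₀ : 0 < R₀) (hK : 0 < K) :
    (R₀ * K) ^ (-(1 / 2) : ℝ) * (R₀ / K) = R₀ ^ (1 / 2 : ℝ) * K ^ (-(3 / 2) : ℝ) := by
  have h1 : R₀ ^ (-(1 / 2) : ℝ) * R₀ = R₀ ^ (1 / 2 : ℝ) := by
    rw [← Real.rpow_add_one hR₀.ne']; norm_num
  have h2 : K ^ (-(1 / 2) : ℝ) / K = K ^ (-(3 / 2) : ℝ) := by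
    rw [← Real.rpow_sub_one hK.ne']; norm_num
  rw [Real.mul_rpow hR₀.le hK.le, ← h1, ← h2]
  ring

private lemma size_two {R₀ K : ℝ} (hR₀ : 0 < R₀) (hK : 0 < K) :
    1 / (R₀ * K) ^ (-(1 / 2) : ℝ) * (1 / K ^ 2) = R₀ ^ (1 / 2 : ℝ) * K ^ (-(3 / 2) : ℝ) := by
  have h1 : 1 / (R₀ * K) ^ (-(1 / 2) : ℝ) = R₀ ^ (1 / 2 : ℝ) * K ^ (1 / 2 : ℝ) := by
    rw [Real.rpow_neg (by positivity), one_div, inv_inv, Real.mul_rpow hR₀.le hK.le]
  have h4 : (1 : ℝ) / K ^ 2 = K ^ (-2 : ℝ) := by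
    rw [Real.rpow_neg hK.le, Real.rpow_two, one_div]
  have h3 : K ^ (1 / 2 : ℝ) * (1 / K ^ 2) = K ^ (-(3 / 2) : ℝ) := by
    rw [h4, ← Real.rpow_add hK]
    norm_num
  rw [h1, mul_assoc, h3]

private lemma size_three {R₀ K : ℝ} (hR₀ : 0 < R₀) (hK : 0 < K) :
    R₀ ^ (1 / 2 : ℝ) * K ^ (-(3 / 2) : ℝ) * ((R₀ * K) ^ (-(1 / 2) : ℝ) * K ^ 2) = 1 := by
  have h1 : R₀ ^ (1 / 2 : ℝ) * R₀ ^ (-(1 / 2) : ℝ) = 1 := by
    rw [← Real.rpow_add hR₀]; norm_num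
  have h2 : K ^ (-(3 / 2) : ℝ) * (K ^ (-(1 / 2) : ℝ) * K ^ 2) = 1 := by
    rw [← Real.rpow_natCast K 2, ← Real.rpow_add hK, ← Real.rpow_add hK]
    norm_num
  calc R₀ ^ (1 / 2 : ℝ) * K ^ (-(3 / 2) : ℝ) * ((R₀ * K) ^ (-(1 / 2) : ℝ) * K ^ 2)
      = (R₀ ^ (1 / 2 : ℝ) * R₀ ^ (-(1 / 2) : ℝ)) * (K ^ (-(3 / 2) : ℝ) * (K ^ (-(1 / 2) : ℝ) * K ^ 2)) := by
        rw [Real.mul_rpow hR₀.le hK.le]; ring
    _ = 1 := by rw [h1, h2, one_mul]

/-- the bound by the averages over the annulus -/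
private lemma step_one {L : ℕ} {H₀ : ℝ → ℝ} (h0 : ContDiff ℝ 2 H₀) {C1 : ℝ} (hC1 : 1 ≤ C1) (n : ℕ)
    {w : (Fin L → ℝ) × (Fin L → ℝ)} {Bd : ℝ} (hw : ‖w‖ ≤ Bd) (p c : ℝ × ℝ) {R₀ R : ℝ} (hR₀ : 1 ≤ R₀)
    (hR : R ∈ Icc (R₀ / 2) (4 * R₀)) (hG : IsSupp (fun θ => R * (Hw H₀ w θ - (p.1 * cos θ + p.2 * sin θ)))) :
    ‖∑ k ∈ sqa (2 ^ n), ft (fun θ => R * (Hw H₀ w θ - (p.1 * cos θ + p.2 * sin θ))) k * ee (dt k c)‖ ≤
      (4 * C1 * max 1 Bd + 1) * (R₀ ^ (1 / 2 : ℝ) * ((2 : ℝ) ^ n) ^ (-(3 / 2) : ℝ)) *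
        ∑ t : Option (Ix L), It H₀ C1 ((R₀ * 2 ^ n) ^ (-(1 / 2) : ℝ)) n w R (c + R • p) t := by
  have hKpos : (0 : ℝ) < 2 ^ n := by positivity
  have hR₀pos : 0 < R₀ := by linarith
  have hRpos : 0 < R := by linarith [hR.1]
  have hβpos : 0 < (R₀ * 2 ^ n) ^ (-(1 / 2) : ℝ) := Real.rpow_pos_of_pos (by positivity) _
  have hB : ∀ k ∈ sqa (2 ^ n), k ≠ 0 := by
    intro k hk hk0
    have h1 := nk_pos_sqa hk
    rw [hk0] at h1
    have : nk (0 : ℤ × ℤ) = 0 := by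
      unfold nk
      rw [norm_eq_zero]
      apply Complex.ext <;> simp [cz]
    linarith
  have hmain := vk_bound_o3 hG (fun k => ee (dt k c)) (sqa (2 ^ n)) hB hβpos
  have hq1 := size_one hR₀pos hKpos
  have hq2 := size_two hR₀pos hKpos
  generalize (R₀ * 2 ^ n) ^ (-(1 / 2) : ℝ) = β at *
  have hI1 := int_one h0 hC1 hβpos n hw p c hRpos
  have hI2 := int_two h0 C1 β n w p c R
  generalize R₀ ^ (1 / 2 : ℝ) * ((2 : ℝ) ^ n) ^ (-(3 / 2) : ℝ) = q at *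
  have hqpos : 0 ≤ q := by rw [← hq1]; positivity
  refine hmain.trans ?_
  rw [hI2, Fintype.sum_option]
  have hs0 : 0 ≤ ∑ i : Ix L, It H₀ C1 β n w R (c + R • p) (some i) :=
    Finset.sum_nonneg fun i _ => It_nonneg H₀ C1 hβpos n w R _ _
  have hn0 := It_nonneg H₀ C1 hβpos n w R (c + R • p) (none : Option (Ix L))
  generalize (∑ i : Ix L, It H₀ C1 β n w R (c + R • p) (some i)) = S1 at *
  generalize It H₀ C1 β n w R (c + R • p) none = S2 at *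
  have hm : 0 ≤ max 1 Bd := by positivity
  have h1 : β * (R * C1 / 2 ^ n * max 1 Bd * S1) ≤ 4 * C1 * max 1 Bd * q * S1 := by
    calc β * (R * C1 / 2 ^ n * max 1 Bd * S1) ≤ β * ((4 * R₀) * C1 / 2 ^ n * max 1 Bd * S1) := by
          have := hR.2
          gcongr
      _ = 4 * C1 * max 1 Bd * (β * (R₀ / 2 ^ n)) * S1 := by ring
      _ = _ := by rw [hq1]
  have h2 : 1 / β * (1 / (2 ^ n) ^ 2 * S2) = q * S2 := by
    rw [← mul_assoc, hq2]
  have h3 := mul_le_mul_of_nonneg_left hI1 hβpos.le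
  rw [h2]
  have h4 : 0 ≤ 4 * C1 * max 1 Bd * q * S2 := by positivity
  have h5 : 0 ≤ q * S1 := mul_nonneg hqpos hs0
  linarith [h3, h1]

theorem types2 (L : ℕ) {H₀ : ℝ → ℝ} (h0 : ContDiff ℝ 2 H₀) (hp : Function.Periodic H₀ (2 * π)) (Bd : ℝ) :
    ∃ (nT : ℕ) (C : ℝ), 0 ≤ C ∧ ∀ n : ℕ, ∃ b : Fin nT → ℝ → ℤ × ℤ → ℂ, (∀ i k, Continuous (fun α => b i α k)) ∧
      (∀ i α k, ‖b i α k‖ ≤ 1) ∧ ∀ w : (Fin L → ℝ) × (Fin L → ℝ), ‖w‖ ≤ Bd → ∀ (p : ℝ × ℝ) (R₀ R : ℝ), 1 ≤ R₀ →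
        R ∈ Icc (R₀ / 2) (4 * R₀) → IsSupp (fun θ => R * (Hw H₀ w θ - (p.1 * cos θ + p.2 * sin θ))) → ∀ c : ℝ × ℝ, ∃ c' : ℝ × ℝ,
          ‖∑ k ∈ sqa (2 ^ n), ft (fun θ => R * (Hw H₀ w θ - (p.1 * cos θ + p.2 * sin θ))) k * ee (dt k c)‖ ≤
            C * R₀ ^ (1 / 2 : ℝ) * ((2 : ℝ) ^ n) ^ (-(3 / 2) : ℝ) * (∑ i, ∑ r ∈ Finset.range 2,
              ∫ α in Icc (-π) π ∩ {α | 1 / 2 ≤ |cos α|}, k0 ((R₀ * 2 ^ n) ^ (-(1 / 2) : ℝ)) α *
                ‖Sc (Hw H₀ w) (blk (n + r)) (b i α) R α c'‖) + C := by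
  classical
  obtain ⟨C1, hC1, hCr⟩ := t_rho_bdd L h0 hp
  obtain ⟨N, ⟨e⟩⟩ : ∃ N : ℕ, Nonempty (Option (Ix L) ≃ Fin N) := ⟨_, ⟨Fintype.equivFin _⟩⟩
  have hpi := Real.pi_pos
  obtain ⟨D, hD, hD1⟩ : ∃ D : ℝ, D = 4 * C1 * max 1 Bd + 1 ∧ 1 ≤ D := by
    refine ⟨_, rfl, ?_⟩
    have : 0 ≤ 4 * C1 * max 1 Bd := by positivity
    linarith
  refine ⟨N, D * (1 + 64 * π * N), by positivity, fun n => ?_⟩
  refine ⟨fun i => wb H₀ C1 n (e.symm i), fun i k => wb_cont h0 C1 n _ k, fun i α k => wb_le hC1 hCr n _ α k, ?_⟩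
  intro w hw p R₀ R hR₀ hR hG c
  refine ⟨c + R • p, ?_⟩
  have hKpos : (0 : ℝ) < 2 ^ n := by positivity
  have hR₀pos : 0 < R₀ := by linarith
  have hβpos : 0 < (R₀ * 2 ^ n) ^ (-(1 / 2) : ℝ) := Real.rpow_pos_of_pos (by positivity) _
  have hstep := step_one h0 hC1 n hw p c hR₀ hR hG
  rw [← hD] at hstep
  have hq3 := size_three hR₀pos hKpos
  have hIt := fun t => It_le h0 hC1 hCr hβpos n w R (c + R • p) t
  have hJ0 := fun t r => Jt_nonneg H₀ C1 hβpos n w R (c + R • p) (t : Option (Ix L)) r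
  have hgoal : (∑ i : Fin N, ∑ r ∈ Finset.range 2,
      ∫ α in Icc (-π) π ∩ {α | 1 / 2 ≤ |cos α|}, k0 ((R₀ * 2 ^ n) ^ (-(1 / 2) : ℝ)) α *
        ‖Sc (Hw H₀ w) (blk (n + r)) (wb H₀ C1 n (e.symm i) α) R α (c + R • p)‖) =
      ∑ t : Option (Ix L), ∑ r ∈ Finset.range 2, Jt H₀ C1 ((R₀ * 2 ^ n) ^ (-(1 / 2) : ℝ)) n w R (c + R • p) t r :=
    Equiv.sum_comp e.symm (fun t : Option (Ix L) => ∑ r ∈ Finset.range 2,
      Jt H₀ C1 ((R₀ * 2 ^ n) ^ (-(1 / 2) : ℝ)) n w R (c + R • p) t r)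
  rw [hgoal]
  have hcard : (Finset.univ : Finset (Option (Ix L))).card = N := by
    rw [Finset.card_univ, Fintype.card_congr e, Fintype.card_fin]
  generalize (R₀ * 2 ^ n) ^ (-(1 / 2) : ℝ) = β at *
  have hsum : ∑ t : Option (Ix L), It H₀ C1 β n w R (c + R • p) t ≤
      (∑ t : Option (Ix L), ∑ r ∈ Finset.range 2, Jt H₀ C1 β n w R (c + R • p) t r) + N * (64 * π * β * (2 ^ n) ^ 2) := by
    refine (Finset.sum_le_sum fun t _ => hIt t).trans_eq ?_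
    rw [Finset.sum_add_distrib, Finset.sum_const, hcard, nsmul_eq_mul]
  have hS0 : 0 ≤ ∑ t : Option (Ix L), ∑ r ∈ Finset.range 2, Jt H₀ C1 β n w R (c + R • p) t r :=
    Finset.sum_nonneg fun t _ => Finset.sum_nonneg fun r _ => hJ0 t r
  generalize (∑ t : Option (Ix L), ∑ r ∈ Finset.range 2, Jt H₀ C1 β n w R (c + R • p) t r) = S at *
  generalize (∑ t : Option (Ix L), It H₀ C1 β n w R (c + R • p) t) = I at *
  rw [mul_assoc (D * (1 + 64 * π * N)) (R₀ ^ (1 / 2 : ℝ)) _]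
  have hq0 : 0 ≤ R₀ ^ (1 / 2 : ℝ) * ((2 : ℝ) ^ n) ^ (-(3 / 2) : ℝ) := by positivity
  generalize R₀ ^ (1 / 2 : ℝ) * ((2 : ℝ) ^ n) ^ (-(3 / 2) : ℝ) = q at *
  have hNn : (0 : ℝ) ≤ N := Nat.cast_nonneg N
  have hπN : 0 ≤ 64 * π * (N : ℝ) := by positivity
  have h1 : D * q * I ≤ D * q * S + D * (64 * π * N) := by
    calc D * q * I ≤ D * q * (S + N * (64 * π * β * (2 ^ n) ^ 2)) := mul_le_mul_of_nonneg_left hsum (by positivity)
      _ = D * q * S + D * (64 * π * N) * (q * (β * (2 ^ n) ^ 2)) := by ring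
      _ = D * q * S + D * (64 * π * N) := by rw [hq3, mul_one]
  refine hstep.trans (h1.trans ?_)
  have h2 : D * q * S ≤ D * (1 + 64 * π * N) * q * S := by
    have : D * q * S * 1 ≤ D * q * S * (1 + 64 * π * N) := mul_le_mul_of_nonneg_left (by linarith) (by positivity)
    calc D * q * S = D * q * S * 1 := by ring
      _ ≤ D * q * S * (1 + 64 * π * N) := this
      _ = _ := by ring
  have h3 : D * (64 * π * N) ≤ D * (1 + 64 * π * N) := mul_le_mul_of_nonneg_left (by linarith) (by linarith)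
  linarith

end Pool.Agent.Helper85.AD
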